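import Pool.Agent.H14.PD.Stmts

/-!
Project PD: the raised paths.
-/

set_option autoImplicit false

namespace Pool.Agent.H14.PD

theorem pd_alp_en {V S : Type} (M : Sd V S) (r : ℕ)
    (trc : TRC) (w : List S) (hw : Tr M.lf.lab M.lact (M.o, 0) w)
    (hV : Tr M.lf.lab M.lact (M.o, 0) (M.vdn r ++ M.vup r))
    (hp : pr M.cm w = pr M.cm (M.vdn r ++ M.vup r)) :
    (en M.lact (M.o, 0) w).2 = 0 := by
  have h := (trc _ _ M.lf).2.2.2 (M.o, 0) w (M.vdn r ++ M.vup r) hw hV hp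
  change en M.lact (M.o, 0) w = en M.lact (M.o, 0) (M.vdn r ++ M.vup r) at h
  rw [h]
  exact M.v_end r

theorem pd_alp : M_ALP := by
  intro trb trc slp rai V S M b r
  have SV := slp V S M.toMc (-(r * M.m : ℤ)) 0
  have hV : Tr M.lf.lab M.lact (M.o, 0) (M.vdn r ++ M.vup r) := SV.2.1 _ _ (M.v_sl r).2
  have key : ∀ j : ℕ, j ≤ r → ∃ w : List S,
      M.Sl (-(((r - j : ℕ) : ℤ) * M.m)) M.m (M.o, 0) w ∧
      pr M.cm w = pr M.cm (M.vdn r ++ M.vup r) ∧
      w.length ≤ 2 * (r * M.m) * (2 * M.m + 6) ^ j ∧ ∀ s ∈ w, M.big s → M.side s = b := by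
    intro j
    induction j with
    | zero =>
      intro _
      refine ⟨M.vdn r ++ M.vup r, ?_, rfl, ?_, ?_⟩
      · refine SV.2.2.2.2.2.2.2.2 _ _ _ _ ?_ ?_ (M.v_sl r)
        · simp
        · positivity
      · rw [M.v_len r]; simp
      · intro s hs hb
        exact absurd hb (M.v_small r s hs)
    | succ j ih =>
      intro hj
      obtain ⟨w, w1, w2, w3, w4⟩ := ih (by omega)
      have e1 : ((r - j : ℕ) : ℤ) = ((r - (j + 1) : ℕ) : ℤ) + 1 := by omega
      have hw : Tr M.lf.lab M.lact (M.o, 0) w :=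
        (slp V S M.toMc (-(((r - j : ℕ) : ℤ) * M.m)) M.m).2.1 _ _ w1.2
      have hen := pd_alp_en M r trc w hw hV w2
      have hn : (0 : ℤ) ≤ ((r - (j + 1) : ℕ) : ℤ) * M.m := by positivity
      have em : -(((r - j : ℕ) : ℤ) * M.m) + M.m = -(((r - (j + 1) : ℕ) : ℤ) * M.m) := by
        rw [e1]; ring
      obtain ⟨w', v1, v2, v3, v4⟩ := rai V S M b (-(((r - j : ℕ) : ℤ) * M.m)) M.m
        (by
          have : -(((r - j : ℕ) : ℤ) * M.m) + 2 * M.m =
            -(((r - (j + 1) : ℕ) : ℤ) * M.m) + M.m := by rw [e1]; ring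
          rw [this]; linarith) w (M.o, 0) w1
        (by rw [em]; change -(((r - (j + 1) : ℕ) : ℤ) * M.m) ≤ 0; linarith)
        (by rw [em, hen]; linarith) (M.cp_o b) w4
      refine ⟨w', ?_, ?_, ?_, v4⟩
      · rw [em] at v1; exact v1
      · rw [v2, w2]
      · calc w'.length ≤ (2 * M.m + 6) * w.length := v3
          _ ≤ (2 * M.m + 6) * (2 * (r * M.m) * (2 * M.m + 6) ^ j) := Nat.mul_le_mul_left _ w3
          _ = 2 * (r * M.m) * (2 * M.m + 6) ^ (j + 1) := by ring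
  obtain ⟨w, w1, w2, w3, w4⟩ := key r le_rfl
  refine ⟨w, ?_, w2, w3, w4⟩
  simpa using w1

end Pool.Agent.H14.PD
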