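import Pool.Agent.H14.PD.Stmts

/-!
Project PD: Dehn's algorithm.
-/

set_option autoImplicit false

namespace Pool.Agent.H14.PD

theorem pd_deh : M_DEH := by
  intro rdb loc Y S C hg x w ht hp hw
  by_contra hcon
  apply hw
  refine loc Y S C hg x w ht hp ?_
  intro a u b huw hul
  by_contra hr
  obtain ⟨a1, u1, b1, s, e1, e2⟩ := (rdb S C.cm).2.2.1 u hr
  apply hcon
  refine ⟨a ++ a1, u1, b1 ++ b, s, ?_, e2, ?_⟩
  · rw [huw, e1]; simp
  · rw [e1] at hul
    simp at hul
    omega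

end Pool.Agent.H14.PD
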