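import Pool.Agent.H14.PD.Stmts

/-!
Project PD: the presentation of the slab group.
-/

set_option autoImplicit false

namespace Pool.Agent.H14.PD

theorem pd_slk_fin {V S : Type} [Finite V] (M : Mc V S) (slp : SLP) (a b : ℤ) (y0 : V × ℤ) :
    Set.Finite {y | (M.slab a b).Rc y0 y} := by
  have h1 : Set.Finite ((Set.univ : Set V) ×ˢ Set.Icc a b) :=
    Set.Finite.prod Set.finite_univ (Set.finite_Icc a b)
  refine Set.Finite.subset (h1.union (Set.finite_singleton y0)) ?_
  rintro y ⟨w, hw, he⟩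
  cases w with
  | nil =>
    right
    exact he.symm
  | cons s w =>
    left
    have h2 : M.Sl a b y0 (s :: w) := ⟨hw.1.2.1, hw⟩
    have h3 := (slp V S M a b).2.2.2.2.2.2.1 _ _ h2
    have he' : en M.lact y0 (s :: w) = y := he
    rw [he'] at h3
    exact ⟨trivial, h3⟩

theorem pd_slk : M_SLK := by
  intro trb slp arc tau phi prr slb sln V S _ M hup hdn a b y0 hab w
  constructor
  · intro h
    classical
    have hfin := pd_slk_fin M slp a b y0
    obtain ⟨T, hT⟩ := (tau _ _ (M.slab a b) y0).2.2.2.2.2.2 hfin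
    obtain ⟨c, c1, c2, c3, _, c5⟩ := prr _ _ (M.slab a b) y0 T hT (FreeGroup.toWord w)
    have hw : FreeGroup.mk (FreeGroup.toWord w) = w := FreeGroup.mk_toWord
    rw [hw] at c3 c5
    have h1 : pr M.cm c = 1 := c3.trans h
    have h2 := slb V S M hup hdn a b hab y0 c c1 h1
    have h3 := sln _ _ (M.slab a b) y0 h2
    have h4 : w * (wd M.lact y0 c)⁻¹ ∈ Subgroup.normalClosure ((M.slab a b).rel y0) :=
      ((arc _ ((M.slab a b).rel y0)).2.2.2.2.2.2 _).2 ⟨_, c5⟩
    have h5 := Subgroup.mul_mem _ h4 h3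
    simpa using h5
  · intro h
    exact (phi _ _ (M.slab a b) y0).2.2.1 w h

end Pool.Agent.H14.PD
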